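import Pool.Agent.V5helper19.EP.Stm

/-! Project EP, job G: the greedy container lemma. -/

set_option autoImplicit false

open Finset Configuration Pool.Agent.W5h2.DP

namespace V5helper39.EP

section

variable (P L : Type) [Fintype P] [Fintype L] [Membership P L]

open Classical in
/-- the points on few of the missed lines -/
noncomputable def X0 (q n : ℕ) (S : Finset P) : Finset P :=
  univ.filter fun x => 2 * n * ((mis L S).filter fun l => x ∈ l).card < (mis L S).card * (q + 1)

open Classical in
lemma mis_insert (S : Finset P) (a : P) :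
    (mis L (insert a S)).card + ((mis L S).filter fun l => a ∈ l).card = (mis L S).card := by
  have h : mis L (insert a S) = (mis L S).filter fun l => ¬ a ∈ l := by
    ext l
    rw [mem_filter, mem_mis, mem_mis]
    constructor
    · intro h
      exact ⟨fun p hp => h p (mem_insert_of_mem hp), h a (mem_insert_self a S)⟩
    · rintro ⟨h1, h2⟩ p hp
      rcases mem_insert.1 hp with rfl | hp
      · exact h2
      · exact h1 p hp
  rw [h, add_comm]
  exact card_filter_add_card_filter_not _

end

open Classical in
lemma greedy (P L : Type) [Fintype P] [Fintype L] [Membership P L] [ProjectivePlane P L]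
    (q n : ℕ) (hq : q = ProjectivePlane.order P L) (hn : n = q ^ 2 + q + 1) (A : Finset P) (j : ℕ) :
    ∃ S : Finset P, S ⊆ A ∧ S.card ≤ j ∧
      (A ⊆ X0 P L q n S ∨ ((mis L S).card : ℝ) ≤ (1 - ((q : ℝ) + 1) / (2 * n)) ^ j * n) := by
  have hn0 : (0 : ℝ) < n := by
    have : 0 < n := by omega
    exact_mod_cast this
  have hqn : (q : ℝ) + 1 ≤ n := by
    have : q + 1 ≤ n := by nlinarith
    exact_mod_cast this
  have hr : 0 ≤ 1 - ((q : ℝ) + 1) / (2 * n) := by
    have : ((q : ℝ) + 1) / (2 * n) ≤ 1 := by
      rw [div_le_one (by positivity)]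
      linarith
    linarith
  induction j with
  | zero =>
    refine ⟨∅, empty_subset A, by simp, Or.inr ?_⟩
    have h1 : (mis L (∅ : Finset P)).card ≤ Fintype.card L := card_le_univ _
    have h2 : Fintype.card L = n := by
      rw [ProjectivePlane.card_lines P L, ← hq, hn]
    rw [h2] at h1
    have h3 : ((mis L (∅ : Finset P)).card : ℝ) ≤ n := by exact_mod_cast h1
    simpa using h3
  | succ j ih =>
    obtain ⟨S, hS, hc, h⟩ := ih
    rcases h with h | h
    · exact ⟨S, hS, hc.trans (Nat.le_succ j), Or.inl h⟩
    · by_cases hA : A ⊆ X0 P L q n S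
      · exact ⟨S, hS, hc.trans (Nat.le_succ j), Or.inl hA⟩
      · obtain ⟨a, haA, ha⟩ := not_subset.1 hA
        refine ⟨insert a S, insert_subset haA hS, (card_insert_le a S).trans (by omega), Or.inr ?_⟩
        have h1 : (mis L S).card * (q + 1) ≤ 2 * n * ((mis L S).filter fun l => a ∈ l).card := by
          by_contra h0
          push Not at h0
          exact ha (by unfold X0; exact mem_filter.2 ⟨mem_univ a, h0⟩)
        have h2 := mis_insert P L S a
        have h1' : ((mis L S).card : ℝ) * ((q : ℝ) + 1) ≤ 2 * n * (((mis L S).filter fun l => a ∈ l).card : ℝ) := by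
          exact_mod_cast h1
        have h2' : ((mis L (insert a S)).card : ℝ) + (((mis L S).filter fun l => a ∈ l).card : ℝ) = ((mis L S).card : ℝ) := by
          exact_mod_cast h2
        have h3 : ((mis L S).card : ℝ) * (((q : ℝ) + 1) / (2 * n)) ≤ (((mis L S).filter fun l => a ∈ l).card : ℝ) := by
          rw [← mul_div_assoc, div_le_iff₀ (by positivity)]
          linarith
        calc ((mis L (insert a S)).card : ℝ) ≤ ((mis L S).card : ℝ) * (1 - ((q : ℝ) + 1) / (2 * n)) := by
              rw [mul_sub, mul_one]; linarith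
          _ ≤ ((1 - ((q : ℝ) + 1) / (2 * n)) ^ j * n) * (1 - ((q : ℝ) + 1) / (2 * n)) :=
              mul_le_mul_of_nonneg_right h hr
          _ = (1 - ((q : ℝ) + 1) / (2 * n)) ^ (j + 1) * n := by ring

theorem t_G (hH : S_H) : V5helper19.EP.S_G := by
  classical
  intro P L _ _ _ _ q n hq hn s J hs hJ
  refine ⟨X0 P L q n, fun A => ?_⟩
  obtain ⟨S, hS, hc, h⟩ := greedy P L q n hq hn A J
  refine ⟨S, hS, hc, ?_⟩
  rcases h with h | h
  · by_cases hm : (mis L S).card ≤ s
    · exact Or.inl hm
    · right
      refine ⟨h, ?_⟩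
      by_contra hX
      push Not at hm hX
      have h1 : 4 * q * n ^ 2 < (X0 P L q n S).card * (mis L S).card * (q + 1) ^ 2 := by
        refine hs.trans_lt ?_
        apply Nat.mul_lt_mul_of_pos_right _ (by positivity)
        nlinarith
      obtain ⟨a, ha, ha2⟩ := hH P L q n hq hn _ _ h1
      unfold X0 at ha
      have h3 := (mem_filter.1 ha).2
      have h4 : ((mis L S).filter fun l => a ∈ l).card = ((mis L S).filter fun l => a ∈ l).card := rfl
      refine absurd ha2 (not_le.2 ?_)
      convert h3
  · left
    have h1 : ((mis L S).card : ℝ) < 1 := h.trans_lt hJ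
    have h2 : (mis L S).card < 1 := by exact_mod_cast h1
    omega

end V5helper39.EP
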